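import Mathlib
import Pool.Agent.Y393.Net2F

noncomputable section
open scoped Classical

namespace Pool.Agent.Results.MP_709e2b_gt.MultiplicityTwo

/-- A geodesic multinet in the Euclidean plane (identified with the complex numbers): a finite
connected graph with straight edges carrying multiplicities, with a prescribed set `U` of
unbalanced vertices. `mult a b` is the multiplicity of the edge `ab`, and `0` means that `a` and `b`
are not joined by an edge. -/
structure Multinet where
  /-- all vertices -/
  V : Finset ℂ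
  /-- the unbalanced (boundary) vertices -/
  U : Finset ℂ
  /-- edge multiplicities -/
  mult : ℂ → ℂ → ℕ
  U_subset : U ⊆ V
  mult_symm : ∀ a b, mult a b = mult b a
  /-- edges join two distinct vertices -/
  edge_ends : ∀ a b, mult a b ≠ 0 → a ∈ V ∧ b ∈ V ∧ a ≠ b
  /-- two distinct edges meet only at common endpoints -/
  edges_meet : ∀ a b c d, mult a b ≠ 0 → mult c d ≠ 0 → s(a, b) ≠ s(c, d) →
    ∀ z ∈ segment ℝ a b, z ∈ segment ℝ c d → (z = a ∨ z = b) ∧ (z = c ∨ z = d)
  /-- no vertex lies inside an edge -/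
  no_vertex_inside : ∀ a b, mult a b ≠ 0 → ∀ c ∈ V, c ∉ openSegment ℝ a b
  connected : ∀ a ∈ V, ∀ b ∈ V, Relation.ReflTransGen (fun x y => mult x y ≠ 0) a b
  /-- the balancing condition at every vertex outside `U` -/
  balanced : ∀ v ∈ V, v ∉ U → ∑ w ∈ V, (mult v w : ℂ) * ((w - v) / (‖w - v‖ : ℂ)) = 0
  /-- balanced vertices are endpoints of at least three edges -/
  degree : ∀ v ∈ V, v ∉ U → 3 ≤ (V.filter (fun w => mult v w ≠ 0)).card
  /-- no edge joins two unbalanced vertices -/
  no_boundary_edge : ∀ a ∈ U, ∀ b ∈ U, mult a b = 0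

open Pool.Agent.Helper544.Planar Pool.Agent.Y393.Net2
open Pool.Agent.Y393.Net3T (u)

/-- the three unbalanced vertices: the vertices of an equilateral triangle -/
def bdry : Finset ℂ := Finset.univ.image (fun k : Fin 3 => ((-20 : ℝ) : ℂ) * u k)

theorem exists_net (M : ℕ) : ∃ G : Multinet, G.U = bdry ∧ G.U.card = 3 ∧ (∀ a b, G.mult a b ≤ 2) ∧
    M < (G.V \ G.U).card := by
  obtain ⟨r, hr, heq⟩ := exists_sol (M + 1 + 1)
  have hinj := sg_inj (m := M + 1) (by omega) hr heq
  let D := drawing r hr hinj
  have hW : ∀ x y, D.W x y ≤ 2 := Wf_le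
  let U : Finset ℂ := Finset.univ.image (fun k : Fin 3 => D.pos (Sum.inl (), k))
  have hUinj : Function.Injective (fun k : Fin 3 => D.pos (Sum.inl (), k)) := by
    intro k k' h
    have := D.inj h
    rw [Prod.mk.injEq] at this
    exact this.2
  have hlayer : ∀ p j, D.pos (Sum.inr p, j) ∉ U := by
    intro p j h
    simp only [U, Finset.mem_image, Finset.mem_univ, true_and] at h
    obtain ⟨k, hk⟩ := h
    have := D.inj hk
    rw [Prod.mk.injEq] at this
    exact absurd this.1 (by simp)
  have hbal : ∀ v ∈ D.V, v ∉ U → ∑ w ∈ D.V, (D.m v w : ℂ) * uv v w = 0 := by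
    intro v hv hvU
    by_cases hvr : v ∈ Set.range D.pos
    · obtain ⟨x, rfl⟩ := hvr
      rw [D.imb_pos x]
      rcases x with ⟨p | p, j⟩
      · exact absurd (Finset.mem_image.2 ⟨j, Finset.mem_univ _, rfl⟩) hvU
      · exact balanced hr heq p j
    · exact D.imb_cross hv hvr
  have hdeg : ∀ v ∈ D.V, v ∉ U → 3 ≤ (D.V.filter (fun w => D.m v w ≠ 0)).card := by
    intro v hv hvU
    by_cases hvr : v ∈ Set.range D.pos
    · obtain ⟨x, rfl⟩ := hvr
      rcases x with ⟨p | p, j⟩
      · exact absurd (Finset.mem_image.2 ⟨j, Finset.mem_univ _, rfl⟩) hvU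
      · exact le_trans (degree_aux p j) (D.degree_pos _)
    · exact le_trans (by norm_num) (D.degree_cross hv hvr)
  have hnoU : ∀ a ∈ U, ∀ b ∈ U, D.m a b = 0 := by
    intro a ha b hb
    simp only [U, Finset.mem_image, Finset.mem_univ, true_and] at ha hb
    obtain ⟨k1, rfl⟩ := ha
    obtain ⟨k2, rfl⟩ := hb
    exact no_bdry hr hinj k1 k2
  let G : Multinet :=
    { V := D.V
      U := U
      mult := D.m
      U_subset := by
        intro v hv
        simp only [U, Finset.mem_image, Finset.mem_univ, true_and] at hv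
        obtain ⟨k, rfl⟩ := hv
        exact D.pos_mem _
      mult_symm := D.m_symm
      edge_ends := fun a b h => D.edge_mem h
      edges_meet := by
        intro a b c d hab hcd hne z hz hz'
        refine D.planar hab hcd ?_ hz hz'
        rintro (⟨h1, h2⟩ | ⟨h1, h2⟩)
        · exact hne (by rw [h1, h2])
        · exact hne (by rw [h1, h2]; exact Sym2.eq_swap)
      no_vertex_inside := fun a b h c hc => D.no_interior h hc
      connected := D.connected (conn_aux (by omega))
      balanced := hbal
      degree := hdeg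
      no_boundary_edge := hnoU }
  refine ⟨G, ?_, ?_, D.m_le hW, ?_⟩
  · change U = bdry
    simp only [U, bdry]
    refine Finset.image_congr fun k _ => ?_
    change posf r (Sum.inl (), k) = _
    simp [posf, sg]
  · change U.card = 3
    simp only [U]
    rw [Finset.card_image_of_injective _ hUinj]
    simp
  · change M < (D.V \ U).card
    have hsub : (Finset.univ : Finset (Fin (M + 1 + 1))).image
        (fun i => D.pos (Sum.inr (Sum.inl i), 0)) ⊆ D.V \ U := by
      intro v hv
      simp only [Finset.mem_image, Finset.mem_univ, true_and] at hv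
      obtain ⟨i, rfl⟩ := hv
      rw [Finset.mem_sdiff]
      exact ⟨D.pos_mem _, hlayer _ 0⟩
    have hc := Finset.card_le_card hsub
    rw [Finset.card_image_of_injective] at hc
    · simp at hc
      omega
    · intro i i' h
      have := D.inj h
      rw [Prod.mk.injEq] at this
      have h1 := Sum.inr.inj this.1
      exact Sum.inl.inj h1

/-- **Multiplicity two is enough.** There are three points of the plane (the vertices of an
equilateral triangle) such that for every `M` some planar geodesic multinet with exactly these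
three unbalanced vertices and all edge multiplicities at most `2` has more than `M` balanced
vertices. Hence for no `n ≥ 2` is the number of balanced vertices of the multinets with three
unbalanced vertices and all multiplicities at most `n` bounded, and there is no function `f` as in
the question. -/
theorem result : (∃ U : Finset ℂ, U.card = 3 ∧ ∀ M : ℕ, ∃ G : Multinet, G.U = U ∧
      (∀ a b, G.mult a b ≤ 2) ∧ M < (G.V \ G.U).card) ∧
    (∀ n : ℕ, 2 ≤ n → ¬ ∃ B : ℕ, ∀ G : Multinet, G.U.card = 3 → (∀ a b, G.mult a b ≤ n) →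
      (G.V \ G.U).card ≤ B) ∧
    ¬ ∃ f : ℕ → ℕ, ∀ n : ℕ, 1 ≤ n → ∀ G : Multinet, G.U.card = 3 →
      (∀ a b, G.mult a b ≤ n) → (G.V \ G.U).card ≤ f n := by
  have h2 : ∀ n : ℕ, 2 ≤ n → ¬ ∃ B : ℕ, ∀ G : Multinet, G.U.card = 3 →
      (∀ a b, G.mult a b ≤ n) → (G.V \ G.U).card ≤ B := by
    rintro n hn ⟨B, hB⟩
    obtain ⟨G, _, h1, h2, h3⟩ := exists_net B
    have := hB G h1 fun a b => (h2 a b).trans hn
    omega
  refine ⟨⟨bdry, ?_, fun M => ?_⟩, h2, ?_⟩
  · obtain ⟨G, h0, h1, _, _⟩ := exists_net 0
    rw [← h0]; exact h1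
  · obtain ⟨G, h0, _, h2, h3⟩ := exists_net M
    exact ⟨G, h0, h2, h3⟩
  · rintro ⟨f, hf⟩
    exact h2 2 le_rfl ⟨f 2, fun G h1 h2 => hf 2 (by norm_num) G h1 h2⟩

end Pool.Agent.Results.MP_709e2b_gt.MultiplicityTwo
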